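import Pool.Agent.Q41.LSS.Final

/-!
# MP_0e620a_ag: the primality threshold of the LSS ideal of the complete graph

Let `T_u = u (u + 1) / 2`. For `n ≥ 2` let `u` be the largest number with `T_u < n`. Then
`asym(prime, K_n) = 2 n - 2 u` if `n = T_u + 1`, and `2 n - 2 u - 1` otherwise, over every field.
-/

set_option autoImplicit false

open MvPolynomial

namespace Pool.Agent.Results.MP_0e620a_ag.PrimalityThreshold

/-- `L_{K_n}(d)`: the ideal generated by the off-diagonal entries of `Y Yᵀ`, where `Y` is the `n × d`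
matrix of variables. -/
noncomputable def LSS (K : Type) [Field K] (n d : ℕ) : Ideal (MvPolynomial (Fin n × Fin d) K) :=
  Ideal.span {f | ∃ i j : Fin n, i ≠ j ∧ f = ∑ l : Fin d, X (i, l) * X (j, l)}

/-- `asym_K(prime, K_n) = t` -/
def IsThreshold (K : Type) [Field K] (n t : ℕ) : Prop :=
  IsLeast {d : ℕ | 1 ≤ d ∧ ∀ d' : ℕ, d ≤ d' → (LSS K n d').IsPrime} t

/-- the largest `u` with `u (u + 1) / 2 < n` (see `rootT_spec`) -/
def rootT (n : ℕ) : ℕ := (Nat.sqrt (8 * n - 7) - 1) / 2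

/-- the number `c_n` -/
def cn (n : ℕ) : ℕ := if n = rootT n * (rootT n + 1) / 2 + 1 then 2 * rootT n else 2 * rootT n + 1

lemma lss_eq (K : Type) [Field K] (n d : ℕ) :
    LSS K n d = Ideal.span (Set.range (Q41.LSS.fP K n d)) := by
  rw [LSS]
  congr 1
  ext f
  constructor
  · rintro ⟨i, j, hij, rfl⟩
    rcases lt_or_gt_of_ne hij with h | h
    · exact ⟨⟨(i, j), h⟩, rfl⟩
    · exact ⟨⟨(j, i), h⟩, Finset.sum_congr rfl fun _ _ => mul_comm _ _⟩
  · rintro ⟨⟨⟨i, j⟩, h⟩, rfl⟩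
    exact ⟨i, j, h.ne, rfl⟩

lemma rootT_spec {n : ℕ} (hn : 1 ≤ n) :
    rootT n * (rootT n + 1) / 2 < n ∧ n ≤ (rootT n + 1) * (rootT n + 2) / 2 := by
  set u := rootT n with hu
  have e1 : 2 * (u * (u + 1) / 2) = u * (u + 1) :=
    Nat.mul_div_cancel' (Nat.even_mul_succ_self u).two_dvd
  have e2 : 2 * ((u + 1) * (u + 2) / 2) = (u + 1) * (u + 2) :=
    Nat.mul_div_cancel' (Nat.even_mul_succ_self (u + 1)).two_dvd
  have h1 := Nat.sqrt_le (8 * n - 7)
  have h2 := Nat.lt_succ_sqrt (8 * n - 7)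
  set q := Nat.sqrt (8 * n - 7) with hq
  have hq1 : 1 ≤ q := Nat.sqrt_pos.2 (by omega)
  have hqu : q = 2 * u + 1 ∨ q = 2 * u + 2 := by
    have : u = (q - 1) / 2 := hu
    omega
  generalize u * (u + 1) / 2 = T at *
  generalize (u + 1) * (u + 2) / 2 = T' at *
  obtain ⟨k, hk⟩ : ∃ k, 8 * n = k + 7 := ⟨8 * n - 7, by omega⟩
  have hk' : 8 * n - 7 = k := by omega
  rw [hk'] at h1 h2
  rcases hqu with h | h <;> rw [h] at h1 h2 <;> constructor <;> nlinarith

theorem result (K : Type) [Field K] :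
    (∀ n : ℕ, 2 ≤ n → IsThreshold K n (2 * n - cn n) ∧
      ∀ d : ℕ, 1 ≤ d → ((LSS K n d).IsPrime ↔ 2 * n - cn n ≤ d)) ∧ IsThreshold K 1 1 := by
  refine ⟨fun n hn => ?_, ?_⟩
  · obtain ⟨h1, h2⟩ := rootT_spec (show 1 ≤ n by omega)
    have hiff : ∀ d : ℕ, 1 ≤ d → ((LSS K n d).IsPrime ↔ 2 * n - cn n ≤ d) := by
      intro d hd
      rw [lss_eq, cn]
      split_ifs with h
      · refine Q41.LSS.case_two ?_ h d hd
        rcases Nat.eq_zero_or_pos (rootT n) with h0 | h0
        · rw [h0] at h; omega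
        · exact h0
      · have := Q41.LSS.case_one (K := K) (show rootT n * (rootT n + 1) / 2 + 2 ≤ n by omega) h2 d hd
        rw [Nat.sub_sub] at this
        exact this
    refine ⟨⟨⟨?_, ?_⟩, ?_⟩, hiff⟩
    · by_contra hcon
      have h3 : 2 * n - cn n ≤ 1 := by omega
      have h4 := (hiff 1 le_rfl).2 h3
      rw [lss_eq] at h4
      have h5 : ¬ Q41.LSS.Pm K n 1 := by
        intro h6
        obtain ⟨b, rfl⟩ : ∃ b, n = 0 + 1 + b := ⟨n - 1, by omega⟩
        refine Q41.LSS.not_pm 0 1 b 1 one_pos (by omega) le_rfl ?_ h6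
        have t1 := Q41.LSS.tri_two b
        have t2 := Q41.LSS.tri_two (0 + 1 + b)
        have t0 : Q41.LSS.tri 0 = 0 := rfl
        rw [t0]
        zify at t1 t2 hn ⊢
        nlinarith
      exact h5 h4
    · intro d' hd'
      rcases Nat.eq_zero_or_pos d' with h0 | h0
      · exfalso
        subst h0
        have h3 : 2 * n - cn n = 0 := by omega
        have h4 := (hiff 1 le_rfl).2 (by omega)
        have h5 : ¬ Q41.LSS.Pm K n 1 := by
          intro h6
          obtain ⟨b, rfl⟩ : ∃ b, n = 0 + 1 + b := ⟨n - 1, by omega⟩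
          refine Q41.LSS.not_pm 0 1 b 1 one_pos (by omega) le_rfl ?_ h6
          have t1 := Q41.LSS.tri_two b
          have t2 := Q41.LSS.tri_two (0 + 1 + b)
          have t0 : Q41.LSS.tri 0 = 0 := rfl
          rw [t0]
          zify at t1 t2 hn ⊢
          nlinarith
        rw [lss_eq] at h4
        exact h5 h4
      · exact (hiff d' h0).2 hd'
    · rintro d ⟨hd1, hd2⟩
      exact (hiff d hd1).1 (hd2 d le_rfl)
  · refine ⟨⟨le_rfl, fun d' _ => ?_⟩, fun d hd => hd.1⟩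
    rw [lss_eq]
    exact Q41.LSS.case_zero d'

end Pool.Agent.Results.MP_0e620a_ag.PrimalityThreshold
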